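import Pool.Agent.Helper64.ORStar.Defs
import Pool.Agent.Helper93.GS.Final
import Pool.Agent.Helper93.GS.CORD
import Pool.Agent.Helper93.GS.CPT
import Pool.Agent.Helper93.GS.Small
import Pool.Agent.Helper93.GS.ZORN
import Pool.Agent.Helper93.GS.LN
import Pool.Agent.Helper93.GS.IDL
import Pool.Agent.Helper93.GS.GSm
import Pool.Agent.Helper93.GS.TFR
import Pool.Agent.Helper93.GS.MUN
import Pool.Agent.Helper93.GS.GDM
import Pool.Agent.Helper61.GS.CEN
import Pool.Agent.Helper61.GS.COM
import Pool.Agent.Helper61.GS.LN2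
import Pool.Agent.Helper61.GS.MUD
import Pool.Agent.Helper61.GS.NIL
import Pool.Agent.Helper61.GS.OR
import Pool.Agent.Helper61.GS.PC
import Pool.Agent.Helper61.GS.RESC
import Pool.Agent.Helper15.GS.QUO
import Pool.Agent.Helper15.GS.SPAN
import Pool.Agent.Helper41.GS.SIGN
import Pool.Agent.Helper89.GS.INF
import Pool.Agent.Helper89.GS.VDEC
import Pool.Agent.Helper53.GS.FGL
import Pool.Agent.Helper94.GS.RES
import Pool.Agent.Helper2.GS.GSI
import Pool.Agent.Helper33.GS.FORCE
import Pool.Agent.Helper35.GS.VDIM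
import Pool.Agent.Helper58.GS.GSN
import Pool.Agent.Helper67.GS.VMUL

set_option autoImplicit false

namespace Pool.Agent.Results.MP_5ef000_al.EngelNotSoluble

open Pool.Agent.Helper64.ORStar Pool.Agent.Helper93.GS

theorem main : ST_MAIN := by
  have hV := st_VMUL
  have hVD := st_VDIM
  have hVE := st_VDEC
  have hIDL := st_IDL hV
  have hIDM := st_IDM
  have hGSI := st_GSI hV hVE hVD hIDL
  have hGSN := st_GSN
  have hGS := st_GS hVD hIDL hGSI hGSN
  have hCOM := st_COM
  have hLN2 := st_LN2 st_FGL st_CEN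
  have hLN := st_LN hLN2 st_ZORN
  have hSIGN := st_SIGN hLN
  have hOR := st_OR hSIGN st_CPT st_CORD
  have hRES := st_RES
  have hRESC := st_RESC hRES
  have hPC := st_PC hRESC
  exact st_MAIN hGS (st_FORCE hIDL hIDM) (st_QUO hV hIDL) (st_GDM hV) st_MUN st_MUD
    (st_ENGD hCOM) st_POWD (st_NIL hCOM) st_TFR hOR hPC st_SPAN (st_INF hVE)

theorem eng_iter {G : Type} [Group G] (x g : G) (k : ℕ) :
    eng x g k = (fun y : G => y * g * y⁻¹ * g⁻¹)^[k] x := by
  induction k with
  | zero => rfl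
  | succ k ih => rw [Function.iterate_succ_apply', ← ih]; rfl

/-- There is a 2-generated group with the right-order extension property which is an Engel group
and is not soluble. -/
theorem result : ∃ (G : Type) (_ : Group G), IsORStar G ∧
    (∃ a b : G, Subgroup.closure {a, b} = ⊤) ∧
    (∀ x g : G, ∃ k : ℕ, (fun y : G => y * g * y⁻¹ * g⁻¹)^[k] x = 1) ∧
    ¬ Group.IsSolvable G := by
  obtain ⟨G, hG, h1, h2, h3, h4⟩ := main
  refine ⟨G, hG, h1, h2, ?_, h4⟩
  intro x g
  obtain ⟨k, hk⟩ := h3 x g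
  exact ⟨k, by rw [← eng_iter]; exact hk⟩

end Pool.Agent.Results.MP_5ef000_al.EngelNotSoluble
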