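import Mathlib
import Pool.Agent.Helper64.ORStar.Defs

set_option autoImplicit false

namespace Pool.Agent.Results.MP_5ef000_al.IsolatedCentralizers

open Pool.Agent.Helper64.ORStar

theorem conj_iter {G : Type*} [Group G] (x g : G) (n : ℕ) (a : G)
    (ha : a = g * (x * g * x⁻¹)⁻¹) :
    g * (x ^ n * g * (x ^ n)⁻¹)⁻¹
      = ((List.range n).map (fun i => x ^ i * a * (x ^ i)⁻¹)).prod := by
  induction n with
  | zero => simp
  | succ k ih =>
    rw [List.range_succ, List.map_append, List.prod_append, ← ih, ha]
    simp only [List.map_cons, List.map_nil, List.prod_cons, List.prod_nil, mul_one]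
    rw [pow_succ]
    group

theorem result (G : Type*) [Group G] (hG : IsORStar G) (x g : G) (n : ℕ) (hn : 0 < n)
    (h : x ^ n * g = g * x ^ n) : x * g = g * x := by
  by_contra hne
  have hx : x ≠ 1 := by
    rintro rfl; exact hne (by simp)
  set a : G := g * (x * g * x⁻¹)⁻¹ with ha
  have ha1 : a ≠ 1 := by
    intro h1
    apply hne
    have h2 : g = x * g * x⁻¹ := by
      have := mul_inv_eq_one.mp (ha ▸ h1)
      exact this
    calc x * g = (x * g * x⁻¹) * x := by group
      _ = g * x := by rw [← h2]
  have hprod : ((List.range n).map (fun i => x ^ i * a * (x ^ i)⁻¹)).prod = 1 := by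
    rw [← conj_iter x g n a ha]
    have : x ^ n * g * (x ^ n)⁻¹ = g := by rw [h]; group
    rw [this]; group
  have hca : Commute (x ^ n) a := by
    have c1 : Commute (x ^ n) g := h
    have c2 : Commute (x ^ n) x := (Commute.refl x).pow_left n
    rw [ha]
    exact c1.mul_right ((c2.mul_right c1).mul_right c2.inv_right).inv_right
  -- product of positive elements is positive
  have hpos : ∀ Q : Cone G, (∀ i : ℕ, x ^ i * a * (x ^ i)⁻¹ ∈ Q.P) → False := by
    intro Q hQ
    have : ∀ m : ℕ, 0 < m →
        ((List.range m).map (fun i => x ^ i * a * (x ^ i)⁻¹)).prod ∈ Q.P := by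
      intro m hm
      induction m with
      | zero => omega
      | succ k ih =>
        rw [List.range_succ, List.map_append, List.prod_append]
        simp only [List.map_cons, List.map_nil, List.prod_cons, List.prod_nil, mul_one]
        rcases Nat.eq_zero_or_pos k with hk | hk
        · subst hk; simpa using hQ 0
        · exact Q.mul _ (ih hk) _ (hQ k)
    have h1 := this n hn
    rw [hprod] at h1
    exact Q.one h1
  by_cases hpow : ∃ l : ℕ, 0 < l ∧ ∃ k : ℤ, x ^ k = a ^ l
  · obtain ⟨l, hl, k, hk⟩ := hpow
    -- all conjugates have the same l-th power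
    have hsame : ∀ i : ℕ, (x ^ i * a * (x ^ i)⁻¹) ^ l = a ^ l := by
      intro i
      rw [conj_pow, ← hk]
      have : Commute (x ^ i) (x ^ k) := by
        exact ((Commute.refl x).zpow_right k).pow_left i
      rw [this.eq]; group
    obtain ⟨s, hs⟩ := hG.1
    obtain ⟨Q, hQ, -⟩ := ofOrder s hs
    -- choose the cone containing a
    have main : ∀ Q : Cone G, Q.Total → a ∈ Q.P → False := by
      intro Q hQ haQ
      apply hpos Q
      intro i
      have hne1 : x ^ i * a * (x ^ i)⁻¹ ≠ 1 := by
        intro h1
        apply ha1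
        have : x ^ i * a = x ^ i := by
          calc x ^ i * a = (x ^ i * a * (x ^ i)⁻¹) * x ^ i := by group
            _ = x ^ i := by rw [h1, one_mul]
        simpa using this
      rcases hQ _ hne1 with h2 | h2
      · exact h2
      · exfalso
        have h3 := cone_pow Q h2 l hl
        rw [inv_pow, hsame i] at h3
        exact cone_not_inv Q (cone_pow Q haQ l hl) h3
    rcases hQ a ha1 with h1 | h1
    · exact main Q hQ h1
    · -- use an extension of the cone generated by a
      let P : Cone G :=
        { P := {g | ∃ m : ℕ, 0 < m ∧ g = a ^ m}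
          mul := by
            rintro _ ⟨m, hm, rfl⟩ _ ⟨k, hk, rfl⟩
            exact ⟨m + k, by omega, (pow_add _ _ _).symm⟩
          one := by
            rintro ⟨m, hm, h⟩
            exact pow_ne_one hG ha1 hm h.symm }
      obtain ⟨Q', hQ', hle⟩ := ext_cone hG P
      exact main Q' hQ' (hle ⟨1, by omega, by simp⟩)
  · push Not at hpow
    let P : Cone G :=
      { P := {g | ∃ m : ℕ, 0 < m ∧ g = a ^ m}
        mul := by
          rintro _ ⟨m, hm, rfl⟩ _ ⟨k, hk, rfl⟩
          exact ⟨m + k, by omega, (pow_add _ _ _).symm⟩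
        one := by
          rintro ⟨m, hm, h⟩
          exact pow_ne_one hG ha1 hm h.symm }
    obtain ⟨Q, hQ, hi⟩ := key hG P x hx n hn
      (by
        rintro _ ⟨m, hm, rfl⟩
        refine ⟨m, hm, ?_⟩
        rw [(hca.pow_right m).eq]; group)
      (by
        rintro _ ⟨m, hm, rfl⟩
        refine ⟨m, hm, ?_⟩
        rw [mul_assoc, ← (hca.pow_right m).eq]; group)
      (by
        rintro k ⟨m, hm, h⟩
        exact hpow m hm k h)
    apply hpos Q
    intro i
    have := hi (i : ℤ) a ⟨1, by omega, by simp⟩
    simpa [zpow_natCast] using this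

end Pool.Agent.Results.MP_5ef000_al.IsolatedCentralizers
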