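import Mathlib
import Pool.Agent.Helper64.ORStar.Inter

set_option autoImplicit false

namespace Pool.Agent.Results.MP_5ef000_al.OrbitFiniteness

open Pool.Agent.Helper64.ORStar

/-- The qualitative orbit theorem. -/
theorem orbit {G : Type*} [Group G] (hG : IsORStar G) (T : Subsemigroup G)
    (hT : (T : Set G).Nonempty) (C : Subgroup G) (hC : IsRelConvex C) (g : G)
    (hg : ∀ t ∈ T, t * g * t⁻¹ ∈ C) (s : G) (hs : s ∈ Subgroup.closure (T : Set G)) :
    s * g * s⁻¹ ∈ C := by
  obtain ⟨t0, ht0⟩ := hT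
  have ht0' : t0 ∈ T := ht0
  -- D = intersection of the subgroups t⁻¹ C t
  let E : T → Subgroup G := fun t =>
    { carrier := {h | t.1 * h * t.1⁻¹ ∈ C}
      mul_mem' := by
        intro a b ha hb
        have := C.mul_mem ha hb
        have e : t.1 * a * t.1⁻¹ * (t.1 * b * t.1⁻¹) = t.1 * (a * b) * t.1⁻¹ := by group
        rw [e] at this
        exact this
      one_mem' := by simp
      inv_mem' := by
        intro a ha
        have := C.inv_mem ha
        have e : (t.1 * a * t.1⁻¹)⁻¹ = t.1 * a⁻¹ * t.1⁻¹ := by group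
        rw [e] at this
        exact this }
  have hE : ∀ t : T, ∀ h, h ∈ E t ↔ t.1 * h * t.1⁻¹ ∈ C := fun t h => Iff.rfl
  have hEc : ∀ t : T, IsRelConvex (E t) := fun t => relConvex_conj C hC t.1 (E t) (hE t)
  have hD : IsRelConvex (⨅ t, E t) := relConvex_iInf hG.1 E hEc
  set D : Subgroup G := ⨅ t, E t with hDdef
  have memD : ∀ h, h ∈ D ↔ ∀ t ∈ T, t * h * t⁻¹ ∈ C := by
    intro h
    rw [hDdef, Subgroup.mem_iInf]
    constructor
    · intro h1 t ht
      exact h1 ⟨t, ht⟩
    · intro h1 t
      exact h1 t.1 t.2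
  -- conjugation by elements of T preserves D, 
  have hfwd : ∀ u ∈ T, ∀ h ∈ D, u * h * u⁻¹ ∈ D := by
    intro u hu h hh
    rw [memD] at hh ⊢
    intro t ht
    have := hh (t * u) (T.mul_mem ht hu)
    have e : t * u * h * (t * u)⁻¹ = t * (u * h * u⁻¹) * t⁻¹ := by group
    rw [e] at this
    exact this
  have hclos : ∀ u ∈ Subgroup.closure (T : Set G), ∀ h ∈ D, u * h * u⁻¹ ∈ D := by
    intro u hu
    induction hu using Subgroup.closure_induction with
    | mem x hx => exact hfwd x hx
    | one => intro h hh; simpa using hh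
    | mul x y _ _ hx hy =>
      intro h hh
      have := hx _ (hy h hh)
      have e : x * (y * h * y⁻¹) * x⁻¹ = x * y * h * (x * y)⁻¹ := by group
      rw [e] at this
      exact this
    | inv x hx0 hx =>
      intro h hh
      -- D is invariant under conjugation by x; use that x⁻¹ also is, by no_incl
      have := no_incl hG D hD x⁻¹ (by
        intro c hc
        have := hx c hc
        simpa using this) h hh
      simpa using this
  have hgD : g ∈ D := by rw [memD]; exact hg
  have h1 := hclos (t0⁻¹ * s)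
    ((Subgroup.closure (T : Set G)).mul_mem
      ((Subgroup.closure (T : Set G)).inv_mem (Subgroup.subset_closure ht0)) hs) g hgD
  rw [memD] at h1
  have h2 := h1 t0 ht0'
  have e : t0 * (t0⁻¹ * s * g * (t0⁻¹ * s)⁻¹) * t0⁻¹ = s * g * s⁻¹ := by group
  rw [e] at h2
  exact h2

theorem result (G : Type*) [Group G] (hG : IsORStar G) (T : Subsemigroup G)
    (hT : (T : Set G).Nonempty) (g s : G) (hs : s ∈ Subgroup.closure (T : Set G)) :
    ∃ F : Finset G, (F : Set G) ⊆ T ∧
      ∀ C : Subgroup G, IsRelConvex C → (∀ t ∈ F, t * g * t⁻¹ ∈ C) → s * g * s⁻¹ ∈ C := by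
  classical
  by_contra hcon
  push Not at hcon
  -- a counterexample for every finite subset of T
  have hcon' : ∀ F : Finset T, ∃ C : Subgroup G, IsRelConvex C ∧
      (∀ t ∈ F, t.1 * g * t.1⁻¹ ∈ C) ∧ s * g * s⁻¹ ∉ C := by
    intro F
    obtain ⟨C, h1, h2, h3⟩ := hcon (F.image (fun t : T => t.1)) (by
      intro x hx
      rw [Finset.mem_coe, Finset.mem_image] at hx
      obtain ⟨t, -, rfl⟩ := hx
      exact t.2)
    exact ⟨C, h1, fun t ht => h2 t.1 (Finset.mem_image_of_mem _ ht), h3⟩
  choose C hC1 hC2 hC3 using hcon'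
  let U : Ultrafilter (Finset T) := Ultrafilter.of Filter.atTop
  have hU : (U : Filter (Finset T)) ≤ Filter.atTop := Ultrafilter.of_le _
  let D : Subgroup G :=
    { carrier := {h | ∀ᶠ F in (U : Filter (Finset T)), h ∈ C F}
      mul_mem' := by
        intro a b ha hb
        filter_upwards [ha, hb] with i h1 h2 using (C i).mul_mem h1 h2
      one_mem' := by
        filter_upwards with i using (C i).one_mem
      inv_mem' := by
        intro a ha
        filter_upwards [ha] with i h1 using (C i).inv_mem h1 }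
  have hDm : ∀ h, h ∈ D ↔ ∀ᶠ F in (U : Filter (Finset T)), h ∈ C F := fun h => Iff.rfl
  have hD : IsRelConvex D := relConvex_ultra hG.1 U C hC1 D hDm
  have h1 : ∀ t ∈ T, t * g * t⁻¹ ∈ D := by
    intro t ht
    rw [hDm]
    have : ∀ᶠ F in (Filter.atTop : Filter (Finset T)), (⟨t, ht⟩ : T) ∈ F := by
      filter_upwards [Filter.eventually_ge_atTop ({⟨t, ht⟩} : Finset T)] with F hF
      exact hF (Finset.mem_singleton_self _)
    filter_upwards [hU this] with F hF
    exact hC2 F _ hF
  have h2 := orbit hG T hT D hD g h1 s hs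
  rw [hDm] at h2
  obtain ⟨F, hF⟩ := h2.exists
  exact hC3 F hF

end Pool.Agent.Results.MP_5ef000_al.OrbitFiniteness
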