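import Mathlib
import Pool.Agent.Helper64.ORStar.Inter

set_option autoImplicit false

namespace Pool.Agent.Results.MP_5ef000_al.SimpleNotBiorderable

open Pool.Agent.Helper64.ORStar

section Holder

variable {G : Type*} [Group G] [LinearOrder G] [MulLeftStrictMono G] [MulRightStrictMono G]
  [MulLeftMono G] [MulRightMono G]

omit [MulRightStrictMono G] in
theorem floor (harch : ∀ g : G, 1 < g → ∀ h : G, ∃ n : ℕ, h ≤ g ^ n) (d : G) (hd : 1 < d)
    (a : G) : ∃ m : ℤ, d ^ m ≤ a ∧ a < d ^ (m + 1) := by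
  have hmono : ∀ m n : ℤ, m ≤ n → d ^ m ≤ d ^ n := by
    intro m n hmn
    obtain ⟨k, hk⟩ := Int.eq_ofNat_of_zero_le (sub_nonneg.mpr hmn)
    have e : n = m + k := by
      have : n - m = (k : ℤ) := hk
      linarith
    rw [e, zpow_add, zpow_natCast]
    exact le_mul_of_one_le_right' (one_le_pow_of_one_le' hd.le k)
  obtain ⟨n, hn⟩ := harch d hd a
  obtain ⟨n', hn'⟩ := harch d hd a⁻¹
  have hlow : d ^ (-(n' : ℤ)) ≤ a := by
    rw [zpow_neg, zpow_natCast]
    exact inv_le_of_inv_le' hn'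
  obtain ⟨m, hm1, hm2⟩ := Int.exists_greatest_of_bdd (P := fun m : ℤ => d ^ m ≤ a)
    ⟨n + 1, by
      intro z hz
      by_contra hlt
      push Not at hlt
      have h1 : d ^ ((n : ℤ) + 1) ≤ d ^ z := hmono _ _ hlt.le
      have h2 : d ^ (n : ℤ) < d ^ ((n : ℤ) + 1) := by
        rw [zpow_add_one]
        exact lt_mul_of_one_lt_right' _ hd
      have h3 : a ≤ d ^ (n : ℤ) := by rw [zpow_natCast]; exact hn
      exact absurd (lt_of_lt_of_le (lt_of_le_of_lt h3 h2) (h1.trans hz)) (lt_irrefl _)⟩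
    ⟨-(n' : ℤ), hlow⟩
  refine ⟨m, hm1, ?_⟩
  by_contra h
  push Not at h
  have := hm2 (m + 1) h
  omega

/-- Hölder: an Archimedean bi-ordered group is commutative. -/
theorem holder (harch : ∀ g : G, 1 < g → ∀ h : G, ∃ n : ℕ, h ≤ g ^ n) (a b : G) :
    a * b = b * a := by
  by_cases hleast : ∃ d : G, 1 < d ∧ ∀ e : G, 1 < e → d ≤ e
  · obtain ⟨d, hd, hmin⟩ := hleast
    have hpow : ∀ h : G, ∃ m : ℤ, h = d ^ m := by
      intro h
      obtain ⟨m, hm1, hm2⟩ := floor harch d hd h
      refine ⟨m, ?_⟩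
      by_contra hne
      have h1 : d ^ m < h := lt_of_le_of_ne hm1 (Ne.symm hne)
      have h2 : 1 < (d ^ m)⁻¹ * h := by
        rw [lt_inv_mul_iff_mul_lt, mul_one]; exact h1
      have h3 := hmin _ h2
      rw [le_inv_mul_iff_mul_le, ← zpow_add_one] at h3
      exact absurd hm2 (not_lt.mpr h3)
    obtain ⟨m, rfl⟩ := hpow a
    obtain ⟨n, rfl⟩ := hpow b
    rw [← zpow_add, ← zpow_add, add_comm]
  · push Not at hleast
    have hroot : ∀ c : G, 1 < c → ∃ d : G, 1 < d ∧ d * d ≤ c := by
      intro c hc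
      obtain ⟨e, he1, he2⟩ := hleast c hc
      by_cases h : e * e ≤ c
      · exact ⟨e, he1, h⟩
      · push Not at h
        refine ⟨c * e⁻¹, ?_, ?_⟩
        · rw [lt_mul_inv_iff_mul_lt, one_mul]; exact he2
        · have h1 : e⁻¹ * (c * e⁻¹) ≤ 1 := by
            rw [inv_mul_le_iff_le_mul, mul_one, mul_inv_le_iff_le_mul]
            exact h.le
          calc c * e⁻¹ * (c * e⁻¹) = c * (e⁻¹ * (c * e⁻¹)) := by group
            _ ≤ c * 1 := mul_le_mul_right h1 c
            _ = c := mul_one c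
    have main : ∀ a b : G, ¬ (1 < a * b * (b * a)⁻¹) := by
      intro a b hc
      obtain ⟨d, hd, hdd⟩ := hroot _ hc
      obtain ⟨m, hm1, hm2⟩ := floor harch d hd a
      obtain ⟨n, hn1, hn2⟩ := floor harch d hd b
      have h1 : a * b < d ^ (m + n + 2) := by
        calc a * b < d ^ (m + 1) * d ^ (n + 1) := mul_lt_mul_of_lt_of_lt hm2 hn2
          _ = d ^ (m + n + 2) := by rw [← zpow_add]; congr 1; ring
      have h2 : d ^ (m + n) ≤ b * a := by
        calc d ^ (m + n) = d ^ n * d ^ m := by rw [← zpow_add]; congr 1; ring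
          _ ≤ b * a := mul_le_mul' hn1 hm1
      have h3 : a * b * (b * a)⁻¹ < d * d := by
        rw [mul_inv_lt_iff_lt_mul]
        calc a * b < d ^ (m + n + 2) := h1
          _ = d * d * d ^ (m + n) := by
              rw [← pow_two, ← zpow_natCast, ← zpow_add]; congr 1; push_cast; ring
          _ ≤ d * d * (b * a) := mul_le_mul_right h2 _
      exact absurd h3 (not_lt.mpr hdd)
    rcases lt_trichotomy (a * b * (b * a)⁻¹) 1 with h | h | h
    · exfalso
      apply main b a
      have := one_lt_inv'.mpr h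
      have e : (a * b * (b * a)⁻¹)⁻¹ = b * a * (a * b)⁻¹ := by group
      rw [e] at this
      exact this
    · exact mul_inv_eq_one.mp h
    · exact absurd h (main a b)

end Holder

theorem result (G : Type*) [Group G] [IsSimpleGroup G] (hG : IsORStar G) :
    ¬ ∃ s : G → G → Prop, IsBiOrder s := by
  classical
  rintro ⟨s, ⟨⟨⟨hrefl, htr, hanti, hR⟩, htot⟩, hL⟩⟩
  let _ : LinearOrder G :=
    { le := s
      le_refl := hrefl
      le_trans := htr
      le_antisymm := hanti
      le_total := htot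
      toDecidableLE := fun a b => Classical.propDecidable _ }
  have _ : MulLeftMono G := ⟨fun c a b hab => hL a b c hab⟩
  have _ : MulRightMono G := ⟨fun c a b hab => hR a b c hab⟩
  have _ : MulLeftStrictMono G := ⟨fun c a b hab => by
    refine lt_of_le_of_ne (hL a b c hab.le) ?_
    intro h
    exact hab.ne (mul_left_cancel h)⟩
  have _ : MulRightStrictMono G := ⟨fun c a b hab => by
    refine lt_of_le_of_ne (hR a b c hab.le) ?_
    intro h
    exact hab.ne (mul_right_cancel h)⟩
  have conj_le : ∀ x a b : G, a ≤ b → x * a * x⁻¹ ≤ x * b * x⁻¹ := by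
    intro x a b hab
    exact mul_le_mul_left (mul_le_mul_right hab x) x⁻¹
  -- the convex subgroup generated by g
  have hCg : ∀ g : G, 1 < g → ∃ C : Subgroup G, ∀ h, h ∈ C ↔ ∃ n : ℕ, h ≤ g ^ n ∧ h⁻¹ ≤ g ^ n := by
    intro g hg
    let C : Subgroup G :=
      { carrier := {h | ∃ n : ℕ, h ≤ g ^ n ∧ h⁻¹ ≤ g ^ n}
        mul_mem' := by
          rintro a b ⟨m, h1, h2⟩ ⟨n, h3, h4⟩
          refine ⟨m + n, ?_, ?_⟩
          · rw [pow_add]; exact mul_le_mul' h1 h3
          · rw [mul_inv_rev, add_comm, pow_add]; exact mul_le_mul' h4 h2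
        one_mem' := ⟨0, by simp⟩
        inv_mem' := by
          rintro a ⟨m, h1, h2⟩
          exact ⟨m, h2, by simpa using h1⟩ }
    exact ⟨C, fun h => Iff.rfl⟩
  -- powers of g bound every element
  have harch : ∀ g : G, 1 < g → ∀ h : G, ∃ n : ℕ, h ≤ g ^ n := by
    intro g hg
    obtain ⟨C, hC⟩ := hCg g hg
    have hconv : ∀ a b c : G, a ∈ C → c ∈ C → a ≤ b → b ≤ c → b ∈ C := by
      intro a b c ha hc hab hbc
      rw [hC] at ha hc ⊢
      obtain ⟨m, -, h2⟩ := ha
      obtain ⟨n, h3, -⟩ := hc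
      refine ⟨max m n, (hbc.trans h3).trans (pow_le_pow_right' hg.le (le_max_right _ _)), ?_⟩
      exact ((inv_le_inv_iff.mpr hab).trans h2).trans (pow_le_pow_right' hg.le (le_max_left _ _))
    have hrel : IsRelConvex C :=
      ⟨s, ⟨⟨hrefl, htr, hanti, hR⟩, htot⟩, fun a b c ha hc hab hbc => hconv a b c ha hc hab hbc⟩
    have hnorm : C.Normal := by
      refine ⟨fun h hh x => ?_⟩
      by_contra hx
      -- then C is contained in its conjugate
      have hincl : ∀ c ∈ C, x⁻¹ * c * x ∈ C := by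
        intro c hc
        by_contra hc'
        -- WLOG sizes: |x⁻¹ c x| ≥ |h|
        have habs : ∀ u v : G, u ∈ C → v ∉ C → 1 ≤ v → u ≤ v := by
          intro u v hu hv hv1
          by_contra huv
          push Not at huv
          exact hv (hconv 1 v u C.one_mem hu hv1 huv.le)
        -- a positive representative of the conjugate
        obtain ⟨w, hwC, hw1, hw2⟩ : ∃ w : G, w ∉ C ∧ 1 ≤ w ∧ x * w * x⁻¹ ∈ C := by
          rcases le_total 1 (x⁻¹ * c * x) with h1 | h1
          · refine ⟨_, hc', h1, ?_⟩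
            have e : x * (x⁻¹ * c * x) * x⁻¹ = c := by group
            rw [e]; exact hc
          · refine ⟨(x⁻¹ * c * x)⁻¹, fun h2 => hc' (by simpa using C.inv_mem h2),
              one_le_inv'.mpr h1, ?_⟩
            have e : x * (x⁻¹ * c * x)⁻¹ * x⁻¹ = c⁻¹ := by group
            rw [e]; exact C.inv_mem hc
        have h1 : x * h * x⁻¹ ≤ x * w * x⁻¹ := conj_le x _ _ (habs h w hh hwC hw1)
        have h2 : x * h⁻¹ * x⁻¹ ≤ x * w * x⁻¹ := conj_le x _ _ (habs h⁻¹ w (C.inv_mem hh) hwC hw1)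
        apply hx
        have e : x * h⁻¹ * x⁻¹ = (x * h * x⁻¹)⁻¹ := by group
        rw [e] at h2
        exact hconv _ _ _ (C.inv_mem hw2) hw2 (inv_le_of_inv_le' h2) h1
      exact hx (no_incl hG C hrel x hincl h hh)
    have hgC : g ∈ C := by
      rw [hC]
      exact ⟨1, by simp, by rw [pow_one]; exact ((inv_lt_one'.mpr hg).trans hg).le⟩
    have htop : C = ⊤ := by
      rcases hnorm.eq_bot_or_eq_top with h | h
      · rw [h, Subgroup.mem_bot] at hgC
        exact absurd hgC hg.ne'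
      · exact h
    intro h
    have : h ∈ C := by rw [htop]; trivial
    rw [hC] at this
    obtain ⟨n, h1, -⟩ := this
    exact ⟨n, h1⟩
  have hcomm : ∀ a b : G, a * b = b * a := holder harch
  -- a nontrivial element
  obtain ⟨g, hg⟩ := exists_ne (1 : G)
  let N : Subgroup G := Subgroup.zpowers (g ^ 2)
  have hN : N.Normal := ⟨fun n hn x => by
    have : x * n * x⁻¹ = n := by rw [hcomm x n]; group
    rw [this]; exact hn⟩
  rcases hN.eq_bot_or_eq_top with h | h
  · have : g ^ 2 ∈ N := Subgroup.mem_zpowers _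
    rw [h, Subgroup.mem_bot] at this
    exact pow_ne_one hG hg (by norm_num) this
  · have : g ∈ N := by rw [h]; trivial
    obtain ⟨k, hk⟩ := Subgroup.mem_zpowers_iff.mp this
    have h1 : g ^ (2 * k - 1) = 1 := by
      rw [zpow_sub, zpow_one, zpow_mul]
      have : (g ^ (2 : ℤ)) ^ k = g := by
        have e : g ^ (2 : ℤ) = g ^ 2 := by norm_cast
        rw [e]; exact hk
      rw [this, mul_inv_cancel]
    exact zpow_ne_one hG hg (by omega) h1

end Pool.Agent.Results.MP_5ef000_al.SimpleNotBiorderable
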